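import Mathlib
import Pool.Agent.L0h79.FR.Defs
import Pool.Agent.TH796.AL.Dir

/-!
# Project FR, module DIR: the direct theorem with explicit constants
-/

set_option autoImplicit false
set_option linter.all false

namespace Pool.Agent.L0h19.FR

open Filter Topology Pool.Agent.TH932.Abs Pool.Agent.TH932.Germs Pool.Agent.TH932.Chi
open Pool.Agent.TH796.AL Pool.Agent.TH796.AL.Lin Pool.Agent.TH796.AL.Dir Pool.Agent.L0h79.FR

lemma dir_consts (m k κ' C r N J : ℝ) (hm : 0 ≤ m) (hk : 0 ≤ k) (hκ : 0 ≤ κ') (hC : 0 ≤ C)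
    (hr : 0 ≤ r) (hN0 : 0 ≤ N) (hJ0 : 0 ≤ J) (hN : N ≤ k * r) (hJ : J ≤ N) :
    ((1 + m * ((κ' * (2 * (m + 1) * C * (N + 1) ^ 2) + C) + 1)) +
      ((1 + m * (2 * (m + 1) * C * (N + 1) ^ 2 + 1)) +
        (1 + 2 * (m + 1) * C * (N + 1) ^ 2)) ≤
      ((3 + m * (κ' * (2 * (m + 1) * (k + 1) ^ 2) + 2) + m * (2 * (m + 1) * (k + 1) ^ 2 + 1) +
        2 * (m + 1) * (k + 1) ^ 2) + (3 * (2 * (m + 1) * (k + 1) ^ 2) + 3)) *
        (C + 1) * (r + 1) ^ 2) ∧
    (2 * (2 * (m + 1) * C * (N + 1) ^ 2) + 2 + 2 * (m + 1) * C * J + C ≤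
      ((3 + m * (κ' * (2 * (m + 1) * (k + 1) ^ 2) + 2) + m * (2 * (m + 1) * (k + 1) ^ 2 + 1) +
        2 * (m + 1) * (k + 1) ^ 2) + (3 * (2 * (m + 1) * (k + 1) ^ 2) + 3)) *
        (C + 1) * (r + 1) ^ 2) := by
  set M : ℝ := 2 * (m + 1) * (k + 1) ^ 2 with hM
  set X : ℝ := (C + 1) * (r + 1) ^ 2 with hX
  set c : ℝ := 2 * (m + 1) * C * (N + 1) ^ 2 with hc
  have hM0 : 0 ≤ M := by positivity
  have hr1 : (1 : ℝ) ≤ (r + 1) ^ 2 := by nlinarith
  have hX1 : 1 ≤ X := by rw [hX]; nlinarith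
  have hCX : C ≤ X := by rw [hX]; nlinarith
  have hc0 : 0 ≤ c := by positivity
  have hN2 : (N + 1) ^ 2 ≤ (k + 1) ^ 2 * (r + 1) ^ 2 := by
    rw [← mul_pow]
    have h1 : N + 1 ≤ (k + 1) * (r + 1) := by nlinarith
    gcongr
  have hcX : c ≤ M * X := by
    calc c = 2 * (m + 1) * C * (N + 1) ^ 2 := hc
      _ ≤ 2 * (m + 1) * (C + 1) * ((k + 1) ^ 2 * (r + 1) ^ 2) := by
        gcongr
        linarith
      _ = M * X := by rw [hM, hX]; ring
  have hK : 2 * (m + 1) * C * J ≤ M * X := by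
    refine le_trans ?_ hcX
    rw [hc]
    have h1 : J ≤ (N + 1) ^ 2 := by nlinarith
    gcongr
  have h1 : m * (κ' * c) ≤ m * (κ' * (M * X)) := by gcongr
  have h2 : m * c ≤ m * (M * X) := by gcongr
  have h3 : m * C ≤ m * X := by gcongr
  have h4 : m ≤ m * X := by nlinarith
  have h5 : 0 ≤ m * (κ' * (M * X)) := by positivity
  have h6 : 0 ≤ m * (M * X) := by positivity
  have h7 : 0 ≤ m * X := by positivity
  have h8 : 0 ≤ M * X := by positivity
  have e : ((3 + m * (κ' * M + 2) + m * (M + 1) + M) + (3 * M + 3)) * (C + 1) * (r + 1) ^ 2 =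
      ((3 + m * (κ' * M + 2) + m * (M + 1) + M) + (3 * M + 3)) * X := by rw [hX]; ring
  rw [e]
  constructor
  · nlinarith
  · nlinarith

/-- **DIR** -/
theorem dir (h1 : S_KPQ) (h2 : S_IND) (h3 : S_TUBE) (h4 : S_EVD) : S_DIR := by
  classical
  intro m B k V hV
  obtain ⟨κ', hκ', hT⟩ := h3 m B k V hV
  refine ⟨(3 + m * (κ' * (2 * (m + 1) * (k + 1) ^ 2) + 2) + m * (2 * (m + 1) * (k + 1) ^ 2 + 1) +
        2 * (m + 1) * (k + 1) ^ 2) + (3 * (2 * (m + 1) * (k + 1) ^ 2) + 3), by positivity, ?_⟩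
  intro C hC r L hL y α hα E hrep hsum i0
  -- the number field
  set F : IntermediateField ℚ ℝ := IntermediateField.adjoin ℚ (Set.range α) with hF
  have hfin : FiniteDimensional ℚ F := by
    apply IntermediateField.finiteDimensional_adjoin
    rintro _ ⟨l, rfl⟩
    exact (hα l).1.isIntegral
  have hαF : ∀ l, α l ∈ F := fun l => IntermediateField.subset_adjoin ℚ _ ⟨l, rfl⟩
  choose Zl fZ z hZr hz1 hz2 P s hs0 hs1 hs2 using hrep
  -- the joint family
  set zz : (Σ l, Zl l) → GG := fun i => z i.1 i.2 with hzz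
  have hcard : Fintype.card (Σ l, Zl l) ≤ k * r := by
    rw [Fintype.card_sigma]
    calc ∑ l, Fintype.card (Zl l) ≤ ∑ _l : Fin k, r := Finset.sum_le_sum fun l _ => hZr l
      _ = k * r := by simp
  have hz1' : ∀ v j, zz j ∈ Sv B L v (-C) := fun v j => hz1 j.1 v j.2
  have hz2' : ∀ j, zz j ∈ SS L (RS B) (-C) := fun j => hz2 j.1 j.2
  obtain ⟨J, fJ, f, D, H, hJ, hind, hD, hDH, hBD, hBH⟩ :=
    h2 m B L hL (Σ l, Zl l) inferInstance zz C hC hz1' (fun j => ⟨-C, hz2' j⟩)
  set c : ℝ := 2 * (m + 1) * C * ((Fintype.card (Σ l, Zl l) : ℝ) + 1) ^ 2 with hc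
  set K0 : ℝ := 2 * (m + 1) * C * Fintype.card J with hK0
  have hc0 : 0 ≤ c := by positivity
  have hK00 : 0 ≤ K0 := by positivity
  have hb1 : ∀ v j, zz (f j) ∈ Sv B L v (-C) := fun v j => hz1' v (f j)
  have hK := h1 m B L hL F hfin J fJ (fun j => zz (f j)) C hC hind hb1
    (fun j => ⟨-C, hz2' (f j)⟩)
  obtain ⟨hE1, hE2⟩ := h4 m B L hL c hc0
  obtain ⟨hE3, -⟩ := h4 m B L hL (κ' * c) (mul_nonneg hκ' hc0)
  obtain ⟨hD1, hD2, hD3⟩ := hE2 D hBD
  have ht0 := hD3 hD
  have hinv := SR_inv hL (c + 1) _ ht0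
  have hDne : ev B hL D ≠ 0 := fun h0 => ht0 (by rw [h0, map_zero]; exact SR_zero _)
  have ht1 := hD1 none
  have ht1' := SR_rho ht1
  -- the finite set where two tubes meet
  set S0 : Finset (Fin m → ℝ) := Finset.univ.biUnion fun p : (Σ l, Zl l) × J =>
    (H p.1 p.2).coeff.support with hS0
  have hS0b : ∀ a ∈ S0, ∀ u, |lv B u a| ≤ c := by
    intro a ha u
    rw [hS0, Finset.mem_biUnion] at ha
    obtain ⟨p, -, hp⟩ := ha
    exact hBH p.1 p.2 a (Finsupp.mem_support_iff.1 hp) u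
  have hfin : (⋃ p : {p : Fin k × Fin k // p.1 ≠ p.2}, {g : Fin m → ℝ |
      (∃ v ∈ V p.1.1, ∃ a ∈ S0, v + a = g) ∧ ∃ w ∈ V p.1.2, ∃ a ∈ S0, w + a = g}).Finite :=
    Set.finite_iUnion fun p => tubes (hV _ _ p.2) S0
  set S1 : Finset (Fin m → ℝ) := hfin.toFinset with hS1
  have htc : ∀ g ∈ S1, ch B hL g ∈ SS L (RS B) (-(κ' * c)) := by
    intro g hg
    rw [hS1, Set.Finite.mem_toFinset] at hg
    obtain ⟨p, ⟨v, hv, a, ha, rfl⟩, w, hw, a', ha', hwa⟩ := Set.mem_iUnion.1 hg
    exact hE3 _ (hT c p.1.1 p.1.2 p.2 v hv w hw a a' (hS0b a ha) (hS0b a' ha') hwa.symm)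
  obtain ⟨δ, hδ⟩ := gm_surj (ev B hL D)
  have htD := hD2
  rw [← hδ] at htD hDne ht1 ht1'
  have hDB1 := db_inv (db_of_RS hL htD) ht1 hDne
  have hsR : ∀ l, gr (fun n => (s l n : ℝ) - y l) ∈ SR L E := by
    intro l
    rw [mem_SR]
    intro ε hε
    filter_upwards [hs2 l, L_nonneg hL] with n h1 h2
    rw [abs_sub_comm]
    refine h1.trans (Real.exp_le_exp.2 ?_)
    nlinarith
  set Q : Fin k → J → Rg m hL := fun l i => ∑ j, P l j * H ⟨l, j⟩ i with hQ
  set A : J → RgA F m hL := fun i => ∑ l,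
    AddMonoidAlgebra.single 0 (algebraMap F (KA F hL) ⟨α l, hαF l⟩) * incR hL F (Q l i) with hA
  have hDs : ∀ l, ev B hL D * gm (s l) = ∑ i, ev B hL (Q l i) * zz (f i) := by
    intro l
    rw [hs1 l, Finset.mul_sum]
    have e1 : ∀ j, ev B hL D * (ev B hL (P l j) * z l j)
        = ∑ i, ev B hL (P l j * H ⟨l, j⟩ i) * zz (f i) := by
      intro j
      have e2 := hDH ⟨l, j⟩
      have e3 : zz ⟨l, j⟩ = z l j := rfl
      rw [e3] at e2
      rw [mul_left_comm, e2, Finset.mul_sum]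
      refine Finset.sum_congr rfl fun i _ => ?_
      rw [map_mul, mul_assoc]
    simp only [e1]
    rw [Finset.sum_comm]
    refine Finset.sum_congr rfl fun i _ => ?_
    rw [hQ]
    simp only []
    rw [map_sum, Finset.sum_mul]
  -- supports
  have hQs : ∀ l i g, (Q l i).coeff g ≠ 0 → ∃ v ∈ V l, ∃ a ∈ S0, v + a = g := by
    intro l i g hg
    rw [hQ] at hg
    simp only [] at hg
    rw [AddMonoidAlgebra.coeff_sum, Finsupp.finsetSum_apply] at hg
    obtain ⟨j, -, hj⟩ := Finset.exists_ne_zero_of_sum_ne_zero hg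
    obtain ⟨a, b, ha, hb, hab⟩ := supp_mul hL hj
    exact ⟨a, hs0 l j a ha, b, Finset.mem_biUnion.2 ⟨(⟨l, j⟩, i), Finset.mem_univ _,
      Finsupp.mem_support_iff.2 hb⟩, hab⟩
  -- the sum is small
  have hAs : ∑ i, evA F B hL (A i) * rho (zz (f i)) ∈ SR L (-c + E) := by
    have e1 : ∑ i, evA F B hL (A i) * rho (zz (f i))
        = rho (gm δ) * ∑ l, algebraMap ℝ HR (α l) * gr (fun n => (s l n : ℝ) - y l) := by
      have e3 : ∀ l, gr (fun n => (s l n : ℝ) - y l) = rho (gm (s l)) - algebraMap ℝ HR (y l) := by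
        intro l
        rw [rho_gm, cst_eq, gr_sub]
      have e2 : ∑ l, algebraMap ℝ HR (α l) * algebraMap ℝ HR (y l) = 0 := by
        simp only [← map_mul]
        rw [← map_sum, hsum, map_zero]
      have e4 : ∀ i, evA F B hL (A i) = ∑ l, algebraMap ℝ HR (α l) * rho (ev B hL (Q l i)) := by
        intro i
        rw [hA]
        simp only []
        rw [map_sum]
        refine Finset.sum_congr rfl fun l _ => ?_
        rw [map_mul, evA_single0, evA_incR]
      simp only [e3, mul_sub, Finset.sum_sub_distrib]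
      rw [e2, mul_zero, sub_zero, hδ]
      simp only [e4, Finset.sum_mul]
      rw [Finset.sum_comm, Finset.mul_sum]
      refine Finset.sum_congr rfl fun l _ => ?_
      rw [mul_left_comm, ← map_mul, hDs l, map_sum, Finset.mul_sum]
      refine Finset.sum_congr rfl fun i _ => ?_
      rw [map_mul, mul_assoc]
    rw [e1]
    refine SR_mul hL ht1' (SR_sum hL _ _ fun l _ => ?_)
    have := SR_mul hL (SR_cst hL (α l)) (hsR l)
    rwa [zero_add] at this
  have hsupp : ∀ i g, (A i).coeff g ≠ 0 → -c + E ≤ lv B none g + K0 := fun i g hg =>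
    hK A (-c + E) hAs i g hg
  have hone : ∀ l i g, (Q l i).coeff g ≠ 0 → g ∉ S1 → -c + E ≤ lv B none g + K0 := by
    intro l i g hg hgS
    refine hsupp i g ?_
    have h3 : ∀ l, (AddMonoidAlgebra.single 0 (algebraMap F (KA F hL) ⟨α l, hαF l⟩)
        * incR hL F (Q l i)).coeff g
        = algebraMap F (KA F hL) ⟨α l, hαF l⟩ * inc hL F ((Q l i).coeff g) := by
      intro l
      rw [AddMonoidAlgebra.coeff_single_zero_mul, incR_coeff]
    rw [hA]
    simp only []
    rw [AddMonoidAlgebra.coeff_sum, Finsupp.finsetSum_apply, Finset.sum_eq_single l]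
    · rw [h3]
      intro h0
      have h5 := congrArg (fun x : KA F hL => (x : HR)) h0
      have h6 : algebraMap ℝ HR (α l) * rho ((Q l i).coeff g : GG) = 0 := h5
      rcases mul_eq_zero.1 h6 with h7 | h7
      · exact (hα l).2 ((algebraMap ℝ HR).injective (by rw [h7, map_zero]))
      · exact hg (Subtype.ext (rho_injective (by rw [h7]; exact (map_zero rho).symm)))
    · intro l' _ hl'
      rw [h3]
      have h0 : (Q l' i).coeff g = 0 := by
        by_contra h0
        apply hgS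
        rw [hS1, Set.Finite.mem_toFinset]
        refine Set.mem_iUnion.2 ⟨⟨(l, l'), hl'.symm⟩, hQs l i g hg, hQs l' i g h0⟩
      rw [h0, map_zero, mul_zero]
    · intro h0
      exact absurd (Finset.mem_univ _) h0
  -- the bounded part
  set G : GG := ∑ i, ∑ g ∈ S1, (((Q i0 i).coeff g : KK L hL) : GG) * ch B hL g * zz (f i) with hG
  obtain ⟨a, ha⟩ := gm_surj G
  have hGS : G ∈ SS L (RS B) (-(κ' * c + C)) := by
    have hF := filt_S (B := B) hL
    refine Finset.sum_induction _ (fun x => x ∈ SS L (RS B) (-(κ' * c + C)))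
      (fun _ _ => hF.add_mem) (hF.zero_mem _) fun i _ => ?_
    refine Finset.sum_induction _ (fun x => x ∈ SS L (RS B) (-(κ' * c + C)))
      (fun _ _ => hF.add_mem) (hF.zero_mem _) fun g hg => ?_
    have h1 := hF.mul_mem (hF.mul_mem (hF.alg_mem ((Q i0 i).coeff g)) (htc g hg)) (hz2' (f i))
    refine hF.anti ?_ h1
    linarith
  have hdiff : ev B hL D * gm (s i0) - G ∈ Sv B L none (-c + E - K0 - C) := by
    have e1 : ev B hL D * gm (s i0) - G
        = ∑ i, (ev B hL (Q i0 i) - ∑ g ∈ S1, (((Q i0 i).coeff g : KK L hL) : GG) * ch B hL g)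
          * zz (f i) := by
      rw [hDs i0, hG, ← Finset.sum_sub_distrib]
      refine Finset.sum_congr rfl fun i _ => ?_
      rw [sub_mul, Finset.sum_mul]
    rw [e1]
    refine Finset.sum_induction _ (fun g => g ∈ Sv B L none (-c + E - K0 - C))
      (fun _ _ => (filt_v hL none).add_mem) ((filt_v hL none).zero_mem _) fun i _ => ?_
    have h2 : ev B hL (Q i0 i) - ∑ g ∈ S1, (((Q i0 i).coeff g : KK L hL) : GG) * ch B hL g
        ∈ Sv B L none (-c + E - K0) := by
      have e2 : ev B hL (Q i0 i) - ∑ g ∈ S1, (((Q i0 i).coeff g : KK L hL) : GG) * ch B hL g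
          = ∑ g ∈ (Q i0 i).coeff.support \ S1,
            (((Q i0 i).coeff g : KK L hL) : GG) * ch B hL g := by
        have e3 : ∑ g ∈ S1, (((Q i0 i).coeff g : KK L hL) : GG) * ch B hL g
            = ∑ g ∈ (Q i0 i).coeff.support ∩ S1,
              (((Q i0 i).coeff g : KK L hL) : GG) * ch B hL g := by
          symm
          refine Finset.sum_subset Finset.inter_subset_right fun g hg hg' => ?_
          have : (Q i0 i).coeff g = 0 := by
            by_contra hne
            exact hg' (Finset.mem_inter.2 ⟨Finsupp.mem_support_iff.2 hne, hg⟩)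
          rw [this]
          simp
        rw [ev_sum, e3, sub_eq_iff_eq_add, add_comm]
        exact (Finset.sum_inter_add_sum_sdiff _ _ _).symm
      rw [e2]
      refine Finset.sum_induction _ (fun g => g ∈ Sv B L none (-c + E - K0))
        (fun _ _ => (filt_v hL none).add_mem) ((filt_v hL none).zero_mem _) fun g hg => ?_
      rw [Finset.mem_sdiff] at hg
      have h3 := hone i0 i g (Finsupp.mem_support_iff.1 hg.1) hg.2
      have := (filt_v (B := B) hL none).mul_mem
        ((filt_v (B := B) hL none).alg_mem ((Q i0 i).coeff g)) (ch_mem (B := B) hL none g)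
      rw [zero_add] at this
      exact (filt_v hL none).anti (by linarith) this
    have h3 := (filt_v hL none).mul_mem h2 (hb1 none i)
    rw [← sub_eq_add_neg] at h3
    exact h3
  rw [← ha] at hGS
  obtain ⟨hc1, hc2⟩ := dir_consts (m : ℝ) (k : ℝ) κ' C (r : ℝ)
    (Fintype.card (Σ l, Zl l) : ℝ) (Fintype.card J : ℝ) (by positivity) (by positivity) hκ' hC
    (by positivity) (by positivity) (by positivity) (by exact_mod_cast hcard)
    (by exact_mod_cast hJ)
  refine ⟨fun n => a n * (δ n)⁻¹, ?_, ?_⟩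
  · have hDB := db_mul (db_of_RS hL hGS) hDB1
    rw [abs_neg, abs_neg, abs_of_nonneg hc0, abs_of_nonneg (by positivity), sub_neg_eq_add] at hDB
    filter_upwards [hDB, L_nonneg hL] with n h1 h2
    refine h1.trans (Real.exp_le_exp.2 ?_)
    exact mul_le_mul_of_nonneg_right hc1 h2
  · have e1 : gr (fun n => y i0 - ((a n * (δ n)⁻¹ : ℚ) : ℝ))
        = -(gr fun n => (s i0 n : ℝ) - y i0)
          + (rho (ev B hL D))⁻¹ * rho (ev B hL D * gm (s i0) - G) := by
      have hne : rho (ev B hL D) ≠ 0 := by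
        rw [← hδ]
        intro h0
        exact hDne (rho_injective (by rw [h0, map_zero]))
      have e2 : (rho (ev B hL D))⁻¹ * rho (ev B hL D * gm (s i0) - G)
          = rho (gm (s i0)) - rho G * (rho (ev B hL D))⁻¹ := by
        rw [map_sub, map_mul, mul_sub, inv_mul_cancel_left₀ hne, mul_comm (rho G)]
      rw [e2, ← ha, ← hδ, rho_gm, rho_gm, rho_gm, gr_inv, gr_mul, gr_sub, gr_neg, gr_add, gr_eq]
      refine Eventually.of_forall fun n => ?_
      push_cast
      ring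
    have e2 : gr (fun n => y i0 - ((a n * (δ n)⁻¹ : ℚ) : ℝ)) ∈
        SR L (E - (2 * c + 1 + K0 + C)) := by
      rw [e1]
      refine SR_add hL ?_ ?_
      · have h1 : -(gr fun n => (s i0 n : ℝ) - y i0) ∈ SR L E := by
          have h2 := SR_mul hL (SR_cst hL (-1)) (hsR i0)
          rw [zero_add, map_neg, map_one, neg_one_mul] at h2
          exact h2
        refine SR_anti hL ?_ h1
        linarith
      · refine SR_anti hL ?_ (SR_mul hL hinv (SR_rho hdiff))
        linarith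
    rw [mem_SR] at e2
    filter_upwards [e2 1 one_pos, L_nonneg hL] with n h1 h2
    refine h1.trans (Real.exp_le_exp.2 ?_)
    have h3 : (2 * c + 2 + K0 + C) * L n ≤ _ := mul_le_mul_of_nonneg_right hc2 h2
    nlinarith

end Pool.Agent.L0h19.FR
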