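import Mathlib
import Pool.Agent.L0h79.FR.Defs
import Pool.Agent.TH914.AL_REP

/-!
# Project FR, modules VAL, SHIFT and CORE
-/

set_option autoImplicit false
set_option linter.all false

namespace Pool.Agent.L0h19.FR

open Filter Topology Pool.Agent.TH932.Abs Pool.Agent.TH932.Germs Pool.Agent.TH932.Chi
open Pool.Agent.TH796.AL Pool.Agent.L0h79.FR Pool.Agent.TH914.AL

/-- common denominators -/
lemma exists_den {α : Type} [Finite α] (τ : α → ℚ) :
    ∃ (q : ℕ) (t : α → ℤ) (T : ℕ), 1 ≤ q ∧ (∀ c, (q : ℚ) * τ c = t c) ∧ ∀ c, |t c| ≤ T := by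
  classical
  have _ := Fintype.ofFinite α
  have h1 : ∀ c, ∃ t : ℤ, ((∏ c, (τ c).den : ℕ) : ℚ) * τ c = t := by
    intro c
    refine ⟨(∏ c' ∈ Finset.univ.erase c, (τ c').den : ℕ) * (τ c).num, ?_⟩
    rw [← Finset.prod_erase_mul _ _ (Finset.mem_univ c)]
    push_cast
    rw [mul_assoc, mul_comm ((τ c).den : ℚ), Rat.mul_den_eq_num]
  choose t ht using h1
  refine ⟨∏ c, (τ c).den, t, ∑ c, (t c).natAbs, ?_, ht, ?_⟩
  · exact Nat.one_le_iff_ne_zero.2 (Finset.prod_ne_zero_iff.2 fun c _ => (τ c).den_nz)
  · intro c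
    rw [Int.abs_eq_natAbs]
    exact_mod_cast Finset.single_le_sum (f := fun c => (t c).natAbs) (fun _ _ => Nat.zero_le _)
      (Finset.mem_univ c)

/-- values of words are fractions with small numerators -/
lemma val_frac {α : Type} (b : ℕ) (hb : 2 ≤ b) (τ : α → ℚ) {q : ℕ} {t : α → ℤ} {T : ℕ}
    (hq : 1 ≤ q) (ht : ∀ c, (q : ℚ) * τ c = t c) (hT : ∀ c, |t c| ≤ T) (u : List α) :
    ∃ M : ℤ, (q : ℚ) * val b τ u = M / (b : ℚ) ^ u.length ∧ |M| ≤ T * (b : ℤ) ^ u.length := by
  have hb0 : (b : ℚ) ≠ 0 := by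
    have : b ≠ 0 := by omega
    exact_mod_cast this
  induction u with
  | nil => exact ⟨0, by simp [val], by simp⟩
  | cons c u ih =>
    obtain ⟨M, h1, h2⟩ := ih
    refine ⟨t c * (b : ℤ) ^ u.length + M, ?_, ?_⟩
    · rw [val, mul_div_assoc', mul_add, h1, ht, List.length_cons, pow_succ]
      push_cast
      field_simp
    · rw [List.length_cons, pow_succ]
      have hbz : (2 : ℤ) ≤ b := by exact_mod_cast hb
      have h3 : (0 : ℤ) < (b : ℤ) ^ u.length := by positivity
      have h4 : (0 : ℤ) ≤ T := by positivity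
      calc |t c * (b : ℤ) ^ u.length + M| ≤ |t c * (b : ℤ) ^ u.length| + |M| := abs_add_le _ _
        _ = |t c| * (b : ℤ) ^ u.length + |M| := by rw [abs_mul, abs_of_pos h3]
        _ ≤ T * (b : ℤ) ^ u.length + T * (b : ℤ) ^ u.length := by
          gcongr
          exact hT c
        _ = T * (b : ℤ) ^ u.length * 2 := by ring
        _ ≤ T * (b : ℤ) ^ u.length * b := by gcongr
        _ = T * ((b : ℤ) ^ u.length * b) := by ring

lemma const_le_exp {L : ℕ → ℝ} (hL : Tendsto L atTop atTop) (A : ℝ) {ε : ℝ} (hε : 0 < ε) :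
    ∀ᶠ n in (UU : Filter ℕ), A ≤ Real.exp (ε * L n) := by
  apply ev_of_atTop
  filter_upwards [hL.eventually_ge_atTop (A / ε)] with n hn
  rw [div_le_iff₀ hε] at hn
  have := Real.add_one_le_exp (ε * L n)
  linarith

/-- **VAL** -/
theorem val_thm : S_VAL := by
  classical
  intro b hb α _ τ C m B e hbe N hL W hW
  obtain ⟨q, t, T, hq, ht, hT⟩ := exists_den τ
  choose M hM1 hM2 using val_frac b hb τ hq ht hT
  have hbc := base_cast B hbe
  have hb0 : (b : ℚ) ≠ 0 := by
    have : b ≠ 0 := by omega
    exact_mod_cast this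
  have hb0r : (0 : ℝ) < b := by
    have : 0 < b := by omega
    exact_mod_cast this
  have hlb : 0 ≤ Real.log b := Real.log_nonneg (by exact_mod_cast (by omega : 1 ≤ b))
  have hD : 0 ≤ (C : ℝ) * Real.log b := by positivity
  have hh : ∀ n, (((W n).length : ℕ) : ℝ) * Real.log b ≤ (C * Real.log b) * N n := by
    intro n
    have h1 : (((W n).length : ℕ) : ℝ) ≤ C * N n := by exact_mod_cast hW n
    calc (((W n).length : ℕ) : ℝ) * Real.log b ≤ (C * N n) * Real.log b := by gcongr
      _ = _ := by ring
  have hexp := fun i n => exp_le B (L := fun n => (N n : ℝ)) (h := fun n => (W n).length)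
    (D := C * Real.log b) hbe hh i n
  have hqz : (q : ℤ) ≠ 0 := by
    have : q ≠ 0 := by omega
    exact_mod_cast this
  have hqQ : (q : ℚ) ≠ 0 := by exact_mod_cast hqz
  constructor
  · intro v
    unfold Sv
    rw [mem_SS]
    intro ε hε
    filter_upwards [L_nonneg hL, const_le_exp hL q hε, const_le_exp hL T hε] with n h1 h2 h3
    have h6 : 0 ≤ ε * (N n : ℝ) := by positivity
    match v with
    | some i =>
      refine ⟨q, ∏ j ∈ Finset.univ.erase i, (B.P j : ℤ) ^ (e j * (W n).length), M (W n),
        -(e i * (W n).length : ℕ), hqz, ?_, ?_, ?_, ?_⟩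
      · rw [Int.cast_natCast, abs_of_nonneg (by positivity)]
        exact h2
      · change IsCoprime _ _
        exact IsCoprime.prod_left fun j hj => (B.cop j i (Finset.ne_of_mem_erase hj)).pow_left
      · have e1 : (b : ℚ) ^ (W n).length = (B.P i : ℚ) ^ (e i * (W n).length) *
            ∏ j ∈ Finset.univ.erase i, (B.P j : ℚ) ^ (e j * (W n).length) := by
          rw [hbc, ← Finset.prod_pow, ← Finset.mul_prod_erase Finset.univ _ (Finset.mem_univ i)]
          congr 1
          · rw [pow_mul]
          · exact Finset.prod_congr rfl fun j _ => by rw [pow_mul]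
        have e2 : ∏ j ∈ Finset.univ.erase i, (B.P j : ℚ) ^ (e j * (W n).length) ≠ 0 :=
          Finset.prod_ne_zero_iff.2 fun j _ => pow_ne_zero _ (P0 B j)
        have e3 := P0 B i
        have e4 := hM1 (W n)
        rw [e1] at e4
        rw [zpow_neg, zpow_natCast]
        push_cast
        calc (q : ℚ) * (∏ j ∈ Finset.univ.erase i, (B.P j : ℚ) ^ (e j * (W n).length)) *
              val b τ (W n)
            = (∏ j ∈ Finset.univ.erase i, (B.P j : ℚ) ^ (e j * (W n).length)) *
              ((q : ℚ) * val b τ (W n)) := by ring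
          _ = _ := by
            rw [e4]
            field_simp
      · have := hexp i n
        nlinarith
    | none =>
      simp only [Rv, Rinf]
      have e4 := hM1 (W n)
      have e5 : |(val b τ (W n) : ℝ)| ≤ T := by
        have e6 : (q : ℝ) * (val b τ (W n) : ℝ) = (M (W n) : ℝ) / (b : ℝ) ^ (W n).length := by
          exact_mod_cast congrArg (fun z : ℚ => (z : ℝ)) e4
        have e7 : |(M (W n) : ℝ)| ≤ T * (b : ℝ) ^ (W n).length := by
          exact_mod_cast hM2 (W n)
        have e8 : |(q : ℝ) * (val b τ (W n) : ℝ)| ≤ T := by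
          rw [e6, abs_div, abs_of_pos (by positivity : (0 : ℝ) < (b : ℝ) ^ (W n).length),
            div_le_iff₀ (by positivity)]
          exact e7
        rw [abs_mul, abs_of_nonneg (by positivity : (0 : ℝ) ≤ (q : ℝ))] at e8
        have e9 : (1 : ℝ) ≤ q := by exact_mod_cast hq
        nlinarith [abs_nonneg (val b τ (W n) : ℝ)]
      refine e5.trans (h3.trans (Real.exp_le_exp.2 ?_))
      nlinarith [mul_nonneg hD (Nat.cast_nonneg (α := ℝ) (N n))]
  · rw [mem_SS]
    intro ε hε
    filter_upwards [L_nonneg hL, const_le_exp hL q hε] with n h1 h2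
    have h6 : 0 ≤ ε * (N n : ℝ) := by positivity
    refine ⟨q, M (W n), fun i => -(e i * (W n).length : ℕ), hqz, ?_, ?_, ?_⟩
    · rw [Int.cast_natCast, abs_of_nonneg (by positivity)]
      exact h2
    · have e1 : (b : ℚ) ^ (W n).length = ∏ j, (B.P j : ℚ) ^ (e j * (W n).length) := by
        rw [hbc, ← Finset.prod_pow]
        exact Finset.prod_congr rfl fun j _ => by rw [pow_mul]
      have e2 : ∏ i, (B.P i : ℚ) ^ (-((e i * (W n).length : ℕ) : ℤ)) =
          ((b : ℚ) ^ (W n).length)⁻¹ := by
        rw [e1, ← Finset.prod_inv_distrib]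
        exact Finset.prod_congr rfl fun j _ => by rw [zpow_neg, zpow_natCast]
      rw [e2, Int.cast_natCast, hM1 (W n)]
      ring
    · intro i
      have := hexp i n
      nlinarith

/-- **SHIFT** -/
theorem shift_thm : S_SHIFT := by
  classical
  intro b hb m B e hbe N hL S M hS
  have hbc := base_cast B hbe
  -- the limit of the ratio
  obtain ⟨t, -, ht⟩ := (isCompact_Icc (a := (0 : ℝ)) (b := M)).ultrafilter_le_nhds
    (UU.map fun n => (S n : ℝ) / N n) (by
      rw [le_principal_iff]
      change ∀ᶠ n in (UU : Filter ℕ), (S n : ℝ) / N n ∈ Set.Icc (0 : ℝ) M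
      filter_upwards [hS, ev_of_atTop (hL.eventually_gt_atTop 0)] with n h1 h2
      refine ⟨by positivity, ?_⟩
      rw [div_le_iff₀ h2]
      exact_mod_cast h1)
  have ht' : Tendsto (fun n => (S n : ℝ) / N n) (UU : Filter ℕ) (𝓝 t) := ht
  obtain ⟨κ, -, hκ⟩ := exists_const (B := B) hL (fun i => -(t * e i))
    (fun n i => -((e i * S n : ℕ) : ℤ)) (by
      intro i ε hε
      have h1 : ∀ᶠ n in (UU : Filter ℕ), |(S n : ℝ) / N n - t| < ε / (e i + 1) := by
        have := (Metric.tendsto_nhds.1 ht') (ε / (e i + 1)) (by positivity)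
        filter_upwards [this] with n hn
        rwa [Real.dist_eq] at hn
      filter_upwards [h1, ev_of_atTop (hL.eventually_gt_atTop 0)] with n h1 h2
      have h3 : (((-((e i * S n : ℕ) : ℤ)) : ℤ) : ℝ) - -(t * e i) * N n =
          -(e i * N n) * ((S n : ℝ) / N n - t) := by
        push_cast
        field_simp
        ring
      rw [h3, abs_mul, abs_neg, abs_of_nonneg (by positivity : (0 : ℝ) ≤ e i * N n)]
      have h4 : (e i : ℝ) * (ε / (e i + 1)) ≤ ε := by
        rw [mul_div_assoc', div_le_iff₀ (by positivity)]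
        nlinarith
      calc (e i : ℝ) * N n * |(S n : ℝ) / N n - t| ≤ e i * N n * (ε / (e i + 1)) := by gcongr
        _ = (e i * (ε / (e i + 1))) * N n := by ring
        _ ≤ ε * N n := by gcongr)
  refine ⟨κ, t, ?_⟩
  rw [← hκ]
  congr 1
  funext n
  have e1 : (b : ℚ) ^ S n = ∏ j, (B.P j : ℚ) ^ (e j * S n) := by
    rw [hbc, ← Finset.prod_pow]
    exact Finset.prod_congr rfl fun j _ => by rw [pow_mul]
  rw [e1, ← Finset.prod_inv_distrib]
  exact Finset.prod_congr rfl fun j _ => by rw [zpow_neg, zpow_natCast]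

lemma val_append {α : Type} (b : ℕ) (hb : 2 ≤ b) (τ : α → ℚ) (u v : List α) :
    val b τ (u ++ v) = val b τ u + ((b : ℚ) ^ u.length)⁻¹ * val b τ v := by
  have hb0 : (b : ℚ) ≠ 0 := by
    have : b ≠ 0 := by omega
    exact_mod_cast this
  induction u with
  | nil => simp [val]
  | cons c u ih =>
    rw [List.cons_append, val, val, ih, List.length_cons, pow_succ]
    field_simp
    ring

/-- values of long prefixes are close to the number -/
lemma val_close {α : Type} (b : ℕ) (hb : 2 ≤ b) (τ : α → ℚ) {T : ℝ} (hT : ∀ c, |(τ c : ℝ)| ≤ T)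
    (u : List α) : ∀ (w : ℕ → α) (x : ℝ),
    HasSum (fun n : ℕ => (τ (w n) : ℝ) / (b : ℝ) ^ (n + 1)) x →
    (∀ i, ∀ hi : i < u.length, u[i] = w i) → |x - val b τ u| ≤ T / (b : ℝ) ^ u.length := by
  have hb2 : (2 : ℝ) ≤ b := by exact_mod_cast hb
  have hb0 : (0 : ℝ) < b := by linarith
  induction u with
  | nil =>
    intro w x hx _
    have h1 : HasSum (fun n : ℕ => T / (b : ℝ) ^ (n + 1)) (T / (b - 1)) := by
      have h2 := hasSum_geometric_of_lt_one (r := (b : ℝ)⁻¹) (by positivity)
        (inv_lt_one_of_one_lt₀ (by linarith))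
      have h3 := h2.mul_left (T / b)
      have h4 : T / b * (1 - (b : ℝ)⁻¹)⁻¹ = T / (b - 1) := by
        have : (b : ℝ) - 1 ≠ 0 := by linarith
        field_simp
      rw [h4] at h3
      refine h3.congr_fun ?_
      intro n
      rw [pow_succ, inv_pow]
      field_simp
    have h2 : |x| ≤ T / (b - 1) := by
      refine hx.norm_le_of_bounded h1 fun n => ?_
      rw [Real.norm_eq_abs, abs_div, abs_of_pos (by positivity : (0 : ℝ) < (b : ℝ) ^ (n + 1))]
      gcongr
      exact hT _
    have hT0 : 0 ≤ T := (abs_nonneg _).trans (hT (w 0))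
    have h3 : T / (b - 1) ≤ T := div_le_self hT0 (by linarith)
    simpa [val] using h2.trans h3
  | cons c u ih =>
    intro w x hx hu
    have h0 : c = w 0 := hu 0 (by simp)
    have h1 : HasSum (fun n : ℕ => (τ (w (n + 1)) : ℝ) / (b : ℝ) ^ (n + 1)) (b * x - τ c) := by
      have h2 := (hasSum_nat_add_iff' 1).2 hx
      have h3 := h2.mul_left (b : ℝ)
      simp only [Finset.range_one, Finset.sum_singleton, zero_add, pow_one] at h3
      have h4 : (b : ℝ) * (x - (τ (w 0) : ℝ) / b) = b * x - τ c := by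
        rw [h0]
        field_simp
      rw [h4] at h3
      refine h3.congr_fun ?_
      intro n
      rw [pow_succ (b : ℝ) (n + 1)]
      field_simp
    have h5 := ih (fun n => w (n + 1)) _ h1 (fun i hi => hu (i + 1) (by simpa using hi))
    have h6 : x - (val b τ (c :: u) : ℚ) = ((b * x - τ c) - (val b τ u : ℝ)) / b := by
      rw [val]
      push_cast
      field_simp
      ring
    rw [h6, abs_div, abs_of_pos hb0, List.length_cons, pow_succ, div_le_iff₀ hb0]
    calc |((b : ℝ) * x - τ c) - (val b τ u : ℝ)| ≤ T / (b : ℝ) ^ u.length := h5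
      _ = _ := by field_simp

/-- **CORE** -/
theorem core (h1 : S_VAL) (h2 : S_SHIFT) : S_CORE := by
  classical
  intro b hb α _ τ w x hx k C hFR
  obtain ⟨W, hW, hW2⟩ := hFR
  have hb2 : (2 : ℝ) ≤ b := by exact_mod_cast hb
  have hb0 : (0 : ℝ) < b := by linarith
  have hlb : 0 < Real.log b := Real.log_pos (by linarith)
  refine ⟨C * Real.log b, by positivity, ?_⟩
  intro m B e hbe N hL
  refine ⟨fun j => gm fun n => val b τ (W (N n) j), fun v j => ?_, fun j => ?_, ?_⟩
  · exact (h1 b hb α inferInstance τ C m B e hbe N hL (fun n => W (N n) j)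
      (fun n => hW (N n) j)).1 v
  · exact (h1 b hb α inferInstance τ C m B e hbe N hL (fun n => W (N n) j)
      (fun n => hW (N n) j)).2
  -- the germs of products of words
  have key : ∀ l : List (Fin k), ∃ P : Fin k → Rg m hL,
      (∀ j g, (P j).coeff g ≠ 0 → g ∈ Submodule.span ℝ {fun i => (e i : ℝ)}) ∧
      gm (fun n => val b τ (l.flatMap (W (N n)))) =
        ∑ j, ev B hL (P j) * gm fun n => val b τ (W (N n) j) := by
    intro l
    induction l with
    | nil =>
      refine ⟨fun _ => 0, fun j g hg => absurd rfl hg, ?_⟩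
      simp [val, gm_zero]
    | cons c l ih =>
      obtain ⟨P, hP1, hP2⟩ := ih
      obtain ⟨κ, t, hκ⟩ := h2 b hb m B e hbe N hL (fun n => (W (N n) c).length) C
        (Eventually.of_forall fun n => hW (N n) c)
      refine ⟨fun j => (if j = c then 1 else 0) +
        AddMonoidAlgebra.single (fun i => -(t * e i)) κ * P j, ?_, ?_⟩
      · intro j g hg
        rw [AddMonoidAlgebra.coeff_add, Finsupp.add_apply] at hg
        by_cases h0 : (AddMonoidAlgebra.single (fun i => -(t * e i)) κ * P j).coeff g = 0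
        · rw [h0, add_zero] at hg
          split_ifs at hg with hj
          · rw [AddMonoidAlgebra.one_def] at hg
            have : g = 0 := by
              by_contra hne
              apply hg
              rw [AddMonoidAlgebra.coeff_single, Finsupp.single_apply, if_neg (fun h => hne h.symm)]
            rw [this]
            exact Submodule.zero_mem _
          · exact absurd rfl hg
        · obtain ⟨a, b', ha, hb', hab⟩ := Dir.supp_mul hL h0
          have ha' : a = fun i => -(t * e i) := by
            by_contra hne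
            apply ha
            rw [AddMonoidAlgebra.coeff_single, Finsupp.single_apply, if_neg (fun h => hne h.symm)]
          rw [← hab, ha']
          refine Submodule.add_mem _ ?_ (hP1 j b' hb')
          refine Submodule.mem_span_singleton.2 ⟨-t, ?_⟩
          funext i
          simp
      · have e1 : gm (fun n => val b τ ((c :: l).flatMap (W (N n)))) =
            gm (fun n => val b τ (W (N n) c)) +
              gm (fun n => ((b : ℚ) ^ (W (N n) c).length)⁻¹) *
                gm (fun n => val b τ (l.flatMap (W (N n)))) := by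
          rw [gm_mul, gm_add]
          congr 1
          funext n
          rw [List.flatMap_cons, val_append b hb]
        rw [e1, hP2, hκ, Finset.mul_sum]
        simp only [map_add, map_mul, ev_single, add_mul, Finset.sum_add_distrib]
        congr 1
        · rw [Finset.sum_eq_single c]
          · rw [if_pos rfl, map_one, one_mul]
          · intro j _ hj
            rw [if_neg hj, map_zero, zero_mul]
          · intro h
            exact absurd (Finset.mem_univ _) h
        · refine Finset.sum_congr rfl fun j _ => ?_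
          ring
  intro E
  obtain ⟨E', hE'⟩ := exists_nat_ge ((E + 1) / Real.log b)
  rw [div_le_iff₀ hlb] at hE'
  obtain ⟨M, N₀, hM⟩ := hW2 E'
  have hN0 : ∀ᶠ n in (UU : Filter ℕ), N₀ ≤ N n := by
    apply ev_of_atTop
    filter_upwards [hL.eventually_ge_atTop (N₀ : ℝ)] with n hn
    exact_mod_cast hn
  have hex : ∀ n, ∃ l : List (Fin k), l.length ≤ M ∧ (N₀ ≤ N n →
      E' * N n ≤ (l.flatMap (W (N n))).length ∧
      ∀ i, ∀ hi : i < (l.flatMap (W (N n))).length, (l.flatMap (W (N n)))[i] = w i) := by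
    intro n
    by_cases hn : N₀ ≤ N n
    · obtain ⟨l, hl1, hl2, hl3⟩ := hM (N n) hn
      exact ⟨l, hl1, fun _ => ⟨hl2, hl3⟩⟩
    · exact ⟨[], by simp, fun h => absurd h hn⟩
  choose ln hln1 hln2 using hex
  obtain ⟨l, -, hl⟩ := Ultrafilter.eq_pure_of_finite_mem
    (f := UU.map ln) (List.finite_length_le (Fin k) M) (by
      rw [Ultrafilter.mem_map]
      exact Filter.univ_mem' fun n => hln1 n)
  have hl' : ∀ᶠ n in (UU : Filter ℕ), ln n = l := by
    have : {l} ∈ UU.map ln := by rw [hl]; exact Set.mem_singleton l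
    exact this
  obtain ⟨P, hP1, hP2⟩ := key l
  refine ⟨P, fun n => val b τ (l.flatMap (W (N n))), hP1, hP2, ?_⟩
  -- a bound for the values
  obtain ⟨T, hT⟩ : ∃ T : ℝ, ∀ c, |(τ c : ℝ)| ≤ T := by
    have _ := Fintype.ofFinite α
    exact ⟨∑ c, |(τ c : ℝ)|, fun c => Finset.single_le_sum (f := fun c => |(τ c : ℝ)|)
      (fun _ _ => abs_nonneg _) (Finset.mem_univ c)⟩
  filter_upwards [hl', hN0, const_le_exp hL T one_pos] with n g1 g2 g3
  have g4 := hln2 n g2
  rw [g1] at g4
  have g5 := val_close b hb τ hT _ w x hx g4.2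
  have hT0 : 0 ≤ T := (abs_nonneg _).trans (hT (w 0))
  refine g5.trans ?_
  have g6 : Real.exp ((E + 1) * N n) ≤ (b : ℝ) ^ (l.flatMap (W (N n))).length := by
    have g7 : (b : ℝ) ^ (l.flatMap (W (N n))).length =
        Real.exp ((l.flatMap (W (N n))).length * Real.log b) := by
      rw [Real.exp_nat_mul, Real.exp_log hb0]
    rw [g7]
    apply Real.exp_le_exp.2
    have g8 : (E' : ℝ) * N n ≤ (l.flatMap (W (N n))).length := by exact_mod_cast g4.1
    have g9 : (0 : ℝ) ≤ N n := Nat.cast_nonneg _
    nlinarith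
  rw [div_le_iff₀ (by positivity)]
  calc T ≤ Real.exp (1 * N n) := g3
    _ = Real.exp (-(E * N n)) * Real.exp ((E + 1) * N n) := by
      rw [← Real.exp_add]
      ring_nf
    _ ≤ Real.exp (-(E * N n)) * (b : ℝ) ^ (l.flatMap (W (N n))).length := by gcongr

end Pool.Agent.L0h19.FR
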